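import Mathlib

/-!
Tours of products of two infinite graphs (given by their distance functions) which come back to a
neighbourhood only during a short time.
-/

open Finset

namespace Pool.Agent.Y225.GR

/-- `d` is the distance of a connected graph -/
structure GM {W : Type} (d : W → W → ℕ) : Prop where
  self : ∀ x, d x x = 0
  symm : ∀ x y, d x y = d y x
  tri : ∀ x y z, d x z ≤ d x y + d y z
  step : ∀ x y n, d x y = n + 1 → ∃ z, d x z = 1 ∧ d z y = n

/-- a tour: small steps, every point is visited, and after the time `D i` no point near the `i`-th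
point is visited -/
structure Tour {W : Type} (d : W → W → ℕ) (q : ℕ → W) (D : ℕ → ℕ) : Prop where
  t1 : ∀ i, d (q i) (q (i + 1)) ≤ 3
  t2 : ∀ z, ∃ i, q i = z
  t3 : ∀ i j, d (q i) (q j) ≤ 1 → j < D i

section factor

variable {α : Type} {d : α → α → ℕ} (h : GM d) (o : α)

include h in
lemma exists_par (a : α) : ∃ b, d o b = d o a - 1 ∧ d a b ≤ 1 := by
  rcases Nat.eq_zero_or_pos (d o a) with h0 | h0
  · exact ⟨a, by omega, by rw [h.self]; omega⟩
  · obtain ⟨z, h1, h2⟩ := h.step a o (d o a - 1) (by rw [h.symm a o]; omega)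
    exact ⟨z, by rw [h.symm o z]; exact h2, h1.le⟩

/-- the parent of a point -/
noncomputable def par (a : α) : α := (exists_par h o a).choose

lemma par_lev (a : α) : d o (par h o a) = d o a - 1 := (exists_par h o a).choose_spec.1
lemma par_near (a : α) : d a (par h o a) ≤ 1 := (exists_par h o a).choose_spec.2

lemma it_lev (a : α) (k : ℕ) : d o ((par h o)^[k] a) = d o a - k := by
  induction k with
  | zero => simp
  | succ k ih => rw [Function.iterate_succ_apply', par_lev h o, ih]; omega

lemma it_near (a : α) (k : ℕ) : d ((par h o)^[k] a) ((par h o)^[k + 1] a) ≤ 1 := by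
  rw [Function.iterate_succ_apply']
  exact par_near h o _

/-- the path from `a` to `t` through the root -/
noncomputable def pth (n : ℕ) (a t : α) (j : ℕ) : α :=
  if j ≤ n then (par h o)^[j] a else (par h o)^[2 * n - j] t

lemma pth_zero (n : ℕ) (a t : α) : pth h o n a t 0 = a := by
  unfold pth
  rw [if_pos (Nat.zero_le _)]
  rfl

lemma pth_end (n : ℕ) (a t : α) {j : ℕ} (hj : 2 * n + 1 ≤ j) : pth h o n a t j = t := by
  unfold pth
  rw [if_neg (by omega)]
  have : 2 * n - j = 0 := by omega
  rw [this]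
  rfl

lemma pth_lev {n : ℕ} {a t : α} (ha : d o a ≤ n) (ht : d o t ≤ n) (j : ℕ) :
    d o (pth h o n a t j) ≤ n := by
  unfold pth
  split_ifs
  · rw [it_lev h o]; omega
  · rw [it_lev h o]; omega

lemma pth_step {n : ℕ} {a t : α} (ha : d o a ≤ n) (ht : d o t ≤ n) (j : ℕ) :
    d (pth h o n a t j) (pth h o n a t (j + 1)) ≤ 1 := by
  unfold pth
  rcases Nat.lt_trichotomy j n with h1 | h1 | h1
  · rw [if_pos (by omega), if_pos (by omega)]
    exact it_near h o a j
  · subst h1
    rw [if_pos le_rfl, if_neg (by omega)]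
    have h2 := h.tri ((par h o)^[j] a) o ((par h o)^[2 * j - (j + 1)] t)
    rw [h.symm _ o, it_lev h o, it_lev h o] at h2
    omega
  · rw [if_neg (by omega), if_neg (by omega)]
    rcases Nat.lt_or_ge j (2 * n) with h3 | h3
    · have h4 := it_near h o t (2 * n - (j + 1))
      have h5 : 2 * n - (j + 1) + 1 = 2 * n - j := by omega
      rw [h5, h.symm] at h4
      exact h4
    · have h4 : 2 * n - j = 0 := by omega
      have h5 : 2 * n - (j + 1) = 0 := by omega
      rw [h4, h5, h.self]
      omega

end factor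

section prod

variable {α β : Type} {dA : α → α → ℕ} {dB : β → β → ℕ} (hA : GM dA) (hB : GM dB) (oa : α) (ob : β)

/-- the distance of the Cartesian product -/
def pd (dA : α → α → ℕ) (dB : β → β → ℕ) (x y : α × β) : ℕ := dA x.1 y.1 + dB x.2 y.2

include hA hB in
lemma pd_gm : GM (pd dA dB) := by
  refine ⟨fun x => by simp [pd, hA.self, hB.self], fun x y => by simp [pd, hA.symm x.1, hB.symm x.2],
    fun x y z => ?_, fun x y n hn => ?_⟩
  · have h1 := hA.tri x.1 y.1 z.1
    have h2 := hB.tri x.2 y.2 z.2
    unfold pd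
    omega
  · unfold pd at hn
    rcases Nat.eq_zero_or_pos (dA x.1 y.1) with h0 | h0
    · obtain ⟨z, h1, h2⟩ := hB.step x.2 y.2 n (by omega)
      refine ⟨(x.1, z), ?_, ?_⟩
      · unfold pd; simp only [hA.self]; omega
      · unfold pd; simp only; omega
    · obtain ⟨z, h1, h2⟩ := hA.step x.1 y.1 (dA x.1 y.1 - 1) (by omega)
      refine ⟨(z, x.2), ?_, ?_⟩
      · unfold pd; simp only [hB.self]; omega
      · unfold pd; simp only; omega

/-- the level of a point -/
def lv (dA : α → α → ℕ) (dB : β → β → ℕ) (oa : α) (ob : β) (x : α × β) : ℕ :=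
  max (dA oa x.1) (dB ob x.2)

include hA hB in
lemma lv_near {x y : α × β} (h : pd dA dB x y ≤ 1) :
    lv dA dB oa ob y ≤ lv dA dB oa ob x + 1 := by
  unfold pd at h
  unfold lv
  have h1 := hA.tri oa x.1 y.1
  have h2 := hB.tri ob x.2 y.2
  omega

variable (p : ℕ → α) (q : ℕ → β)

/-- the path from `x` to the corner of its shell -/
noncomputable def toC (n : ℕ) (x : α × β) (k : ℕ) : α × β :=
  if dA oa x.1 = n then (pth hA oa n x.1 (p n) (k - (2 * n + 1)), pth hB ob n x.2 (q n) k)
  else (pth hA oa n x.1 (p n) k, pth hB ob n x.2 (q n) (k - (2 * n + 1)))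

variable (hp : ∀ n, dA oa (p n) = n) (hq : ∀ n, dB ob (q n) = n)

lemma toC_zero (n : ℕ) (x : α × β) : toC hA hB oa ob p q n x 0 = x := by
  unfold toC
  split_ifs <;> simp [pth_zero]

lemma toC_end (n : ℕ) (x : α × β) {k : ℕ} (hk : 4 * n + 2 ≤ k) :
    toC hA hB oa ob p q n x k = (p n, q n) := by
  unfold toC
  split_ifs
  · rw [pth_end hA oa n _ _ (by omega), pth_end hB ob n _ _ (by omega)]
  · rw [pth_end hA oa n _ _ (by omega), pth_end hB ob n _ _ (by omega)]

include hp hq in
lemma toC_lv {n : ℕ} {x : α × β} (hx : lv dA dB oa ob x = n) (k : ℕ) :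
    lv dA dB oa ob (toC hA hB oa ob p q n x k) = n := by
  have h1 : dA oa x.1 ≤ n := by unfold lv at hx; omega
  have h2 : dB ob x.2 ≤ n := by unfold lv at hx; omega
  have hpn := hp n
  have hqn := hq n
  unfold toC
  split_ifs with h3
  · unfold lv
    simp only
    have h4 := pth_lev hA oa (t := p n) h1 hpn.le (k - (2 * n + 1))
    have h5 := pth_lev hB ob (t := q n) h2 hqn.le k
    rcases Nat.lt_or_ge k (2 * n + 1) with h6 | h6
    · have h7 : k - (2 * n + 1) = 0 := by omega
      rw [h7, pth_zero]
      omega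
    · rw [pth_end hB ob n _ _ h6]
      omega
  · have h3' : dB ob x.2 = n := by unfold lv at hx; omega
    unfold lv
    simp only
    have h4 := pth_lev hA oa (t := p n) h1 hpn.le k
    have h5 := pth_lev hB ob (t := q n) h2 hqn.le (k - (2 * n + 1))
    rcases Nat.lt_or_ge k (2 * n + 1) with h6 | h6
    · have h7 : k - (2 * n + 1) = 0 := by omega
      rw [h7, pth_zero]
      omega
    · rw [pth_end hA oa n _ _ h6]
      omega

include hp hq in
lemma toC_step {n : ℕ} {x : α × β} (hx : lv dA dB oa ob x = n) (k : ℕ) :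
    pd dA dB (toC hA hB oa ob p q n x k) (toC hA hB oa ob p q n x (k + 1)) ≤ 1 := by
  have h1 : dA oa x.1 ≤ n := by unfold lv at hx; omega
  have h2 : dB ob x.2 ≤ n := by unfold lv at hx; omega
  have hpn := hp n
  have hqn := hq n
  unfold toC pd
  split_ifs with h3
  · simp only
    rcases Nat.lt_or_ge k (2 * n + 1) with h6 | h6
    · have h7 : k - (2 * n + 1) = 0 := by omega
      have h8 : k + 1 - (2 * n + 1) = 0 := by omega
      rw [h7, h8, hA.self]
      have := pth_step hB ob (t := q n) h2 hqn.le k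
      omega
    · rw [pth_end hB ob n _ _ h6, pth_end hB ob n _ _ (by omega : 2 * n + 1 ≤ k + 1), hB.self]
      have h7 : k + 1 - (2 * n + 1) = k - (2 * n + 1) + 1 := by omega
      rw [h7]
      have := pth_step hA oa (t := p n) h1 hpn.le (k - (2 * n + 1))
      omega
  · simp only
    rcases Nat.lt_or_ge k (2 * n + 1) with h6 | h6
    · have h7 : k - (2 * n + 1) = 0 := by omega
      have h8 : k + 1 - (2 * n + 1) = 0 := by omega
      rw [h7, h8, hB.self]
      have := pth_step hA oa (t := p n) h1 hpn.le k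
      omega
    · rw [pth_end hA oa n _ _ h6, pth_end hA oa n _ _ (by omega : 2 * n + 1 ≤ k + 1), hA.self]
      have h7 : k + 1 - (2 * n + 1) = k - (2 * n + 1) + 1 := by omega
      rw [h7]
      have := pth_step hB ob (t := q n) h2 hqn.le (k - (2 * n + 1))
      omega

/-- from the corner to `x` and back -/
noncomputable def loop (n : ℕ) (x : α × β) (k : ℕ) : α × β :=
  toC hA hB oa ob p q n x ((4 * n + 4 - k) + (k - (4 * n + 4)))

lemma loop_zero (n : ℕ) (x : α × β) : loop hA hB oa ob p q n x 0 = (p n, q n) := by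
  unfold loop
  exact toC_end hA hB oa ob p q n x (by omega)

lemma loop_mid (n : ℕ) (x : α × β) : loop hA hB oa ob p q n x (4 * n + 4) = x := by
  unfold loop
  rw [Nat.sub_self, Nat.add_zero]
  exact toC_zero hA hB oa ob p q n x

lemma loop_end (n : ℕ) (x : α × β) : loop hA hB oa ob p q n x (8 * n + 8) = (p n, q n) := by
  unfold loop
  exact toC_end hA hB oa ob p q n x (by omega)

include hp hq in
lemma loop_lv {n : ℕ} {x : α × β} (hx : lv dA dB oa ob x = n) (k : ℕ) :
    lv dA dB oa ob (loop hA hB oa ob p q n x k) = n := toC_lv hA hB oa ob p q hp hq hx _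

include hp hq in
lemma loop_step {n : ℕ} {x : α × β} (hx : lv dA dB oa ob x = n) (k : ℕ) :
    pd dA dB (loop hA hB oa ob p q n x k) (loop hA hB oa ob p q n x (k + 1)) ≤ 1 := by
  unfold loop
  rcases Nat.lt_or_ge k (4 * n + 4) with h1 | h1
  · have h2 : (4 * n + 4 - k) + (k - (4 * n + 4)) =
        ((4 * n + 4 - (k + 1)) + ((k + 1) - (4 * n + 4))) + 1 := by omega
    rw [h2, (pd_gm hA hB).symm]
    exact toC_step hA hB oa ob p q hp hq hx _
  · have h2 : (4 * n + 4 - (k + 1)) + ((k + 1) - (4 * n + 4)) =
        ((4 * n + 4 - k) + (k - (4 * n + 4))) + 1 := by omega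
    rw [h2]
    exact toC_step hA hB oa ob p q hp hq hx _

/-- from a corner to the next one -/
noncomputable def trans (n : ℕ) (k : ℕ) : α × β :=
  if k ≤ 2 * n + 1 then (pth hA oa n (p n) (par hA oa (p (n + 1))) k, q n)
  else (p (n + 1), pth hB ob (n + 1) (q n) (q (n + 1)) (k - (2 * n + 2)))

lemma trans_zero (n : ℕ) : trans hA hB oa ob p q n 0 = (p n, q n) := by
  unfold trans
  rw [if_pos (by omega), pth_zero]

lemma trans_end (n : ℕ) : trans hA hB oa ob p q n (8 * n + 8) = (p (n + 1), q (n + 1)) := by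
  unfold trans
  rw [if_neg (by omega), pth_end hB ob (n + 1) _ _ (by omega)]

include hp hq in
lemma trans_lv (n k : ℕ) : n ≤ lv dA dB oa ob (trans hA hB oa ob p q n k) ∧
    lv dA dB oa ob (trans hA hB oa ob p q n k) ≤ n + 1 := by
  have h1 := hp n
  have h2 := hp (n + 1)
  have h3 := hq n
  have h4 := hq (n + 1)
  have h5 := par_lev hA oa (p (n + 1))
  unfold trans lv
  split_ifs
  · simp only
    have := pth_lev hA oa (a := p n) (t := par hA oa (p (n + 1))) h1.le (by omega) k
    omega
  · simp only
    have := pth_lev hB ob (a := q n) (t := q (n + 1)) (n := n + 1) (by omega) h4.le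
      (k - (2 * n + 2))
    omega

include hp hq in
lemma trans_step (n k : ℕ) : pd dA dB (trans hA hB oa ob p q n k)
    (trans hA hB oa ob p q n (k + 1)) ≤ 1 := by
  have h1 := hp n
  have h2 := hp (n + 1)
  have h3 := hq n
  have h4 := hq (n + 1)
  have h5 := par_lev hA oa (p (n + 1))
  unfold trans
  rcases Nat.lt_trichotomy k (2 * n + 1) with h6 | h6 | h6
  · rw [if_pos (by omega), if_pos (by omega)]
    unfold pd
    simp only [hB.self]
    have := pth_step hA oa (a := p n) (t := par hA oa (p (n + 1))) h1.le (by omega) k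
    omega
  · subst h6
    rw [if_pos (by omega), if_neg (by omega), pth_end hA oa n _ _ le_rfl]
    have h7 : 2 * n + 1 + 1 - (2 * n + 2) = 0 := by omega
    rw [h7, pth_zero]
    unfold pd
    simp only [hB.self]
    have := par_near hA oa (p (n + 1))
    rw [hA.symm] at this
    omega
  · rw [if_neg (by omega), if_neg (by omega)]
    unfold pd
    simp only [hA.self]
    have h7 : k + 1 - (2 * n + 2) = k - (2 * n + 2) + 1 := by omega
    rw [h7]
    have := pth_step hB ob (a := q n) (t := q (n + 1)) (n := n + 1) (by omega) h4.le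
      (k - (2 * n + 2))
    omega

end prod

end Pool.Agent.Y225.GR
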