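import Mathlib
import Pool.Agent.Y225.GR.Tour

/-!
The tour of a product of two infinite graphs of at most exponential growth.
-/

open Finset

namespace Pool.Agent.Y225.GR

def MM (M n : ℕ) : ℕ := M ^ (2 * (n + 1))

def nx (M : ℕ) (s : ℕ × ℕ × ℕ) : ℕ × ℕ × ℕ :=
  if s.2.2 < 8 * s.1 + 8 then (s.1, s.2.1, s.2.2 + 1)
  else if s.2.1 < MM M s.1 + 1 then (s.1, s.2.1 + 1, 0)
  else (s.1 + 1, 0, 0)

def stt (M : ℕ) : ℕ → ℕ × ℕ × ℕ
  | 0 => (0, 0, 0)
  | i + 1 => nx M (stt M i)

def RN (M n : ℕ) : ℕ := (8 * n + 9) * (MM M n + 2)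

lemma MM_mono {M a b : ℕ} (hM : 1 ≤ M) (h : a ≤ b) : MM M a ≤ MM M b := by
  unfold MM
  exact Nat.pow_le_pow_right hM (by omega)

lemma RN_mono {M a b : ℕ} (hM : 1 ≤ M) (h : a ≤ b) : RN M a ≤ RN M b := by
  unfold RN
  exact Nat.mul_le_mul (by omega) (by have := MM_mono hM h; omega)

lemma reach_k {M i n m : ℕ} (h : stt M i = (n, m, 0)) :
    ∀ k, k ≤ 8 * n + 8 → stt M (i + k) = (n, m, k) := by
  intro k
  induction k with
  | zero => intro _; exact h
  | succ k ih =>
    intro hk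
    have h1 := ih (by omega)
    have : stt M (i + (k + 1)) = nx M (stt M (i + k)) := rfl
    rw [this, h1]
    unfold nx
    simp only
    rw [if_pos (by omega)]

lemma reach_m {M i n : ℕ} (h : stt M i = (n, 0, 0)) :
    ∀ m, m ≤ MM M n + 1 → ∃ j, stt M j = (n, m, 0) := by
  intro m
  induction m with
  | zero => intro _; exact ⟨i, h⟩
  | succ m ih =>
    intro hm
    obtain ⟨j, hj⟩ := ih (by omega)
    have h1 := reach_k hj (8 * n + 8) le_rfl
    refine ⟨j + (8 * n + 8) + 1, ?_⟩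
    have : stt M (j + (8 * n + 8) + 1) = nx M (stt M (j + (8 * n + 8))) := rfl
    rw [this, h1]
    unfold nx
    simp only
    rw [if_neg (by omega), if_pos (by omega)]

lemma reach_n (M n : ℕ) : ∃ i, stt M i = (n, 0, 0) := by
  induction n with
  | zero => exact ⟨0, rfl⟩
  | succ n ih =>
    obtain ⟨i, hi⟩ := ih
    obtain ⟨j, hj⟩ := reach_m hi (MM M n + 1) le_rfl
    have h1 := reach_k hj (8 * n + 8) le_rfl
    refine ⟨j + (8 * n + 8) + 1, ?_⟩
    have : stt M (j + (8 * n + 8) + 1) = nx M (stt M (j + (8 * n + 8))) := rfl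
    rw [this, h1]
    unfold nx
    simp only
    rw [if_neg (by omega), if_neg (by omega)]

lemma stt_inv {M : ℕ} (hM : 1 ≤ M) (i : ℕ) : (stt M i).1 ≤ i ∧ (stt M i).2.2 ≤ 8 * (stt M i).1 + 8 ∧
    (stt M i).2.1 ≤ MM M (stt M i).1 + 1 ∧
    i ≤ (stt M i).1 * RN M (stt M i).1 + (stt M i).2.1 * (8 * (stt M i).1 + 9) + (stt M i).2.2 ∧
    M ^ (2 * (stt M i).1) + (stt M i).2.1 * (8 * (stt M i).1 + 9) + (stt M i).2.2 ≤ i + 1 := by
  induction i with
  | zero => simp [stt]
  | succ i ih =>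
    simp only [stt]
    generalize stt M i = s at ih
    obtain ⟨n, m, k⟩ := s
    simp only at ih
    obtain ⟨h1, h2, h3, h4, h5⟩ := ih
    unfold nx
    simp only
    split_ifs with g1 g2
    · simp only
      refine ⟨by omega, by omega, by omega, by omega, by omega⟩
    · simp only
      have : (m + 1) * (8 * n + 9) = m * (8 * n + 9) + (8 * n + 9) := by ring
      refine ⟨by omega, by omega, by omega, by omega, by omega⟩
    · simp only
      have hm : m = MM M n + 1 := by omega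
      have hk : k = 8 * n + 8 := by omega
      subst hm
      subst hk
      have e1 : n * RN M n + (MM M n + 1) * (8 * n + 9) + (8 * n + 8) + 1 = (n + 1) * RN M n := by
        unfold RN; ring
      have e2 : (n + 1) * RN M n ≤ (n + 1) * RN M (n + 1) :=
        Nat.mul_le_mul_left _ (RN_mono hM (by omega))
      have e3 : M ^ (2 * (n + 1)) ≤ (MM M n + 1) * (8 * n + 9) := by
        have : MM M n ≤ (MM M n + 1) * (8 * n + 9) := by nlinarith
        exact this
      refine ⟨by omega, by omega, by omega, by omega, ?_⟩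
      rw [Nat.zero_mul, Nat.add_zero, Nat.add_zero]
      omega

lemma stt_lt {M : ℕ} (hM : 1 ≤ M) (i : ℕ) : i < ((stt M i).1 + 1) * RN M (stt M i).1 := by
  obtain ⟨h1, h2, h3, h4, _⟩ := stt_inv hM i
  generalize stt M i = s at h1 h2 h3 h4
  obtain ⟨n, m, k⟩ := s
  simp only at h1 h2 h3 h4 ⊢
  have e1 : n * RN M n + (MM M n + 1) * (8 * n + 9) + (8 * n + 8) + 1 = (n + 1) * RN M n := by
    unfold RN; ring
  have e2 : m * (8 * n + 9) ≤ (MM M n + 1) * (8 * n + 9) := Nat.mul_le_mul_right _ h3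
  omega

/-- the bound for the time of return -/
def DP (M i : ℕ) : ℕ := (i + 3) * ((8 * i + 25) * (M ^ 6 * (i + 1) + 2))

section

variable {α β : Type} {dA : α → α → ℕ} {dB : β → β → ℕ} (hA : GM dA) (hB : GM dB) (oa : α) (ob : β)
  (p : ℕ → α) (q : ℕ → β) (hp : ∀ n, dA oa (p n) = n) (hq : ∀ n, dB ob (q n) = n)
  (M : ℕ) (pn : ℕ → ℕ → α × β) (hpn : ∀ n m, lv dA dB oa ob (pn n m) = n)
  (hs : ∀ n x, lv dA dB oa ob x = n → ∃ m, m ≤ MM M n ∧ pn n m = x)

noncomputable def seg (n m k : ℕ) : α × β :=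
  if m ≤ MM M n then loop hA hB oa ob p q n (pn n m) k else trans hA hB oa ob p q n k

noncomputable def Qp (i : ℕ) : α × β :=
  seg hA hB oa ob p q M pn (stt M i).1 (stt M i).2.1 (stt M i).2.2

lemma seg_zero (n m : ℕ) : seg hA hB oa ob p q M pn n m 0 = (p n, q n) := by
  unfold seg
  split_ifs
  · exact loop_zero hA hB oa ob p q n _
  · exact trans_zero hA hB oa ob p q n

include hp hq hpn in
lemma seg_step (n m k : ℕ) : pd dA dB (seg hA hB oa ob p q M pn n m k)
    (seg hA hB oa ob p q M pn n m (k + 1)) ≤ 1 := by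
  unfold seg
  split_ifs
  · exact loop_step hA hB oa ob p q hp hq (hpn n m) k
  · exact trans_step hA hB oa ob p q hp hq n k

include hp hq hpn in
lemma seg_lv (n m k : ℕ) : n ≤ lv dA dB oa ob (seg hA hB oa ob p q M pn n m k) ∧
    lv dA dB oa ob (seg hA hB oa ob p q M pn n m k) ≤ n + 1 := by
  unfold seg
  split_ifs
  · have := loop_lv hA hB oa ob p q hp hq (hpn n m) k
    omega
  · exact trans_lv hA hB oa ob p q hp hq n k

include hp hq hpn in
lemma Qp_step (hM : 1 ≤ M) (i : ℕ) : pd dA dB (Qp hA hB oa ob p q M pn i)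
    (Qp hA hB oa ob p q M pn (i + 1)) ≤ 1 := by
  obtain ⟨_, h2, h3, _⟩ := stt_inv hM i
  unfold Qp
  simp only [stt]
  generalize stt M i = s at h2 h3
  obtain ⟨n, m, k⟩ := s
  simp only at h2 h3
  unfold nx
  simp only
  split_ifs with g1 g2
  · exact seg_step hA hB oa ob p q hp hq M pn hpn n m k
  · simp only
    have hk : k = 8 * n + 8 := by omega
    subst hk
    rw [seg_zero]
    unfold seg
    rw [if_pos (by omega), loop_end, (pd_gm hA hB).self]
    omega
  · simp only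
    have hk : k = 8 * n + 8 := by omega
    subst hk
    rw [seg_zero]
    unfold seg
    rw [if_neg (by omega), trans_end, (pd_gm hA hB).self]
    omega

include hs in
lemma Qp_surj (z : α × β) : ∃ i, Qp hA hB oa ob p q M pn i = z := by
  obtain ⟨m, hm, hm2⟩ := hs _ z rfl
  generalize lv dA dB oa ob z = n at hm hm2
  obtain ⟨i, hi⟩ := reach_n M n
  obtain ⟨j, hj⟩ := reach_m hi m (by omega)
  have h1 := reach_k hj (4 * n + 4) (by omega)
  refine ⟨j + (4 * n + 4), ?_⟩
  unfold Qp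
  rw [h1]
  unfold seg
  simp only
  rw [if_pos hm, loop_mid, hm2]

include hp hq hpn in
lemma Qp_near (hM : 1 ≤ M) {i j : ℕ} (h : pd dA dB (Qp hA hB oa ob p q M pn i)
    (Qp hA hB oa ob p q M pn j) ≤ 1) : j < DP M i := by
  have h1 := lv_near hA hB oa ob h
  have h2 := (seg_lv hA hB oa ob p q hp hq M pn hpn (stt M i).1 (stt M i).2.1 (stt M i).2.2).2
  have h3 := (seg_lv hA hB oa ob p q hp hq M pn hpn (stt M j).1 (stt M j).2.1 (stt M j).2.2).1
  have h4 := stt_lt hM j
  obtain ⟨h5, _, _, _, h6⟩ := stt_inv hM i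
  change lv dA dB oa ob (Qp hA hB oa ob p q M pn i) ≤ _ at h2
  change _ ≤ lv dA dB oa ob (Qp hA hB oa ob p q M pn j) at h3
  have h7 : (stt M j).1 ≤ (stt M i).1 + 2 := by omega
  clear h1 h2 h3 h
  generalize (stt M j).1 = b at h4 h7
  generalize (stt M i).1 = a at h5 h6 h7
  have h8 : (b + 1) * RN M b ≤ (a + 3) * RN M (a + 2) :=
    Nat.mul_le_mul (by omega) (RN_mono hM (by omega))
  have h9 : M ^ (2 * a) ≤ i + 1 := by omega
  have h10 : MM M (a + 2) ≤ M ^ 6 * (i + 1) := by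
    unfold MM
    have : M ^ (2 * (a + 2 + 1)) = M ^ 6 * M ^ (2 * a) := by ring
    rw [this]
    exact Nat.mul_le_mul_left _ h9
  have h11 : RN M (a + 2) ≤ (8 * i + 25) * (M ^ 6 * (i + 1) + 2) := by
    unfold RN
    exact Nat.mul_le_mul (by omega) (by omega)
  have h12 : (a + 3) * RN M (a + 2) ≤ DP M i := by
    unfold DP
    exact Nat.mul_le_mul (by omega) h11
  omega

include hp hq hpn hs in
theorem tour (hM : 1 ≤ M) : Tour (pd dA dB) (Qp hA hB oa ob p q M pn) (DP M) :=
  ⟨fun i => (Qp_step hA hB oa ob p q hp hq M pn hpn hM i).trans (by omega),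
    Qp_surj hA hB oa ob p q M pn hs,
    fun _ _ h => Qp_near hA hB oa ob p q hp hq M pn hpn hM h⟩

end

/-- at most exponential growth -/
def Growth {α : Type} (d : α → α → ℕ) (o : α) (M : ℕ) : Prop :=
  ∀ n, {a | d o a ≤ n}.Finite ∧ {a | d o a ≤ n}.ncard ≤ M ^ (n + 1)

lemma exists_lev {α : Type} [Infinite α] {d : α → α → ℕ} (h : GM d) (o : α) {M : ℕ}
    (hg : Growth d o M) (n : ℕ) : ∃ a, d o a = n := by
  obtain ⟨a, ha⟩ : ∃ a, n ≤ d o a := by
    by_contra hc
    push Not at hc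
    have h1 : {a | d o a ≤ n} = Set.univ := by
      ext a
      simp [(hc a).le]
    have h2 := (hg n).1
    rw [h1] at h2
    exact Set.infinite_univ h2
  refine ⟨(par h o)^[d o a - n] a, ?_⟩
  rw [it_lev h o]
  omega

lemma exists_enum {W : Type} {S : Set W} (hS : S.Finite) (x0 : W) (hx0 : x0 ∈ S) {K : ℕ}
    (hK : S.ncard ≤ K) : ∃ f : ℕ → W, (∀ m, f m ∈ S) ∧ ∀ x ∈ S, ∃ m, m ≤ K ∧ f m = x := by
  classical
  set l := hS.toFinset.toList with hl
  have hlen : l.length = S.ncard := by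
    rw [hl, Finset.length_toList, Set.ncard_eq_toFinset_card S hS]
  have hmem : ∀ x, x ∈ l ↔ x ∈ S := fun x => by simp [hl]
  refine ⟨fun m => if h : m < l.length then l[m] else x0, fun m => ?_, fun x hx => ?_⟩
  · by_cases h : m < l.length
    · simp only [dif_pos h]
      exact (hmem _).mp (List.getElem_mem h)
    · simp only [dif_neg h]
      exact hx0
  · obtain ⟨m, hm, hmx⟩ := List.getElem_of_mem ((hmem x).mpr hx)
    refine ⟨m, by omega, ?_⟩
    simp only [dif_pos hm]
    exact hmx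

/-- products of two infinite graphs of at most exponential growth have tours -/
theorem exists_tour {α β : Type} [Infinite α] [Infinite β] {dA : α → α → ℕ} {dB : β → β → ℕ}
    (hA : GM dA) (hB : GM dB) {oa : α} {ob : β} {M : ℕ} (hM : 1 ≤ M) (gA : Growth dA oa M)
    (gB : Growth dB ob M) : ∃ q, Tour (pd dA dB) q (DP M) := by
  choose p hp using exists_lev hA oa gA
  choose q hq using exists_lev hB ob gB
  have key : ∀ n, ∃ f : ℕ → α × β, (∀ m, f m ∈ {x | lv dA dB oa ob x = n}) ∧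
      ∀ x ∈ {x | lv dA dB oa ob x = n}, ∃ m, m ≤ MM M n ∧ f m = x := by
    intro n
    have hsub : {x : α × β | lv dA dB oa ob x = n} ⊆ {a | dA oa a ≤ n} ×ˢ {b | dB ob b ≤ n} := by
      intro x hx
      simp only [Set.mem_setOf_eq, lv] at hx
      simp only [Set.mem_prod, Set.mem_setOf_eq]
      omega
    have hfin := ((gA n).1.prod (gB n).1)
    refine exists_enum (hfin.subset hsub) (p n, q n) ?_ ?_
    · simp [lv, hp, hq]
    · refine (Set.ncard_le_ncard hsub hfin).trans ?_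
      rw [Set.ncard_prod]
      unfold MM
      have : M ^ (2 * (n + 1)) = M ^ (n + 1) * M ^ (n + 1) := by ring
      rw [this]
      exact Nat.mul_le_mul (gA n).2 (gB n).2
  choose pn hpn1 hpn2 using key
  exact ⟨_, tour hA hB oa ob p q hp hq M pn hpn1 hpn2 hM⟩

end Pool.Agent.Y225.GR
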