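import Mathlib
import Pool.Agent.H575R3.ZRough
import Pool.Agent.Y225.GR.Prod

/-!
Graphs built on a tour of an arbitrary metric `d` of a connected graph: rough isometry.
-/

open Finset

namespace Pool.Agent.Y225.GR

open Pool.Agent.H575R3.Net Pool.Agent.H575R3.ZZ

noncomputable section

/-- the data that tie the hubs to the points of `W` -/
structure LatW {W : Type} (d : W → W → ℕ) (u : Up) (i0 : ℕ) (Pt : ℕ → W) : Prop where
  s1 : ∀ i, d (Pt i) (Pt (i + 1)) ≤ 3
  s2 : ∀ i, i0 ≤ i → ∀ j, i < j → d (Pt i) (Pt j) ≤ 1 → j ∈ u.up i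
  s3 : ∀ i, ∀ j ∈ u.up i, d (Pt i) (Pt j) ≤ 1
  s4 : ∀ z, ∃ k, i0 ≤ k ∧ Pt k = z
  s5 : ∀ i, i ≤ i0 → Pt i = Pt i0

variable {W : Type} {d : W → W → ℕ} (hd : GM d) {u : Up} {i0 : ℕ} {Pt : ℕ → W}

include hd in
lemma distNear (L : LatW d u i0 Pt) {i j : ℕ} (hi : i0 ≤ i) (hj : i0 ≤ j)
    (h : d (Pt i) (Pt j) ≤ 1) : (gr (CZ u)).dist (hv u i) (hv u j) ≤ 2 := by
  rcases lt_trichotomy i j with h1 | h1 | h1
  · exact dist_up (L.s2 i hi j h1 h)
  · subst h1; simp
  · rw [SimpleGraph.dist_comm]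
    rw [hd.symm] at h
    exact dist_up (L.s2 j hj i h1 h)

include hd in
lemma distFar (L : LatW d u i0 Pt) (n : ℕ) : ∀ i j : ℕ, i0 ≤ i → i0 ≤ j → d (Pt i) (Pt j) = n →
    (gr (CZ u)).dist (hv u i) (hv u j) ≤ 2 * (n + 1) := by
  induction n with
  | zero =>
    intro i j hi hj h
    exact (distNear hd L hi hj (by omega)).trans (by omega)
  | succ n ih =>
    intro i j hi hj h
    obtain ⟨z, h1, h2⟩ := hd.step _ _ _ h
    obtain ⟨k, hk, rfl⟩ := L.s4 z
    have h3 := distNear hd L hi hk (by omega)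
    have h4 := ih k j hk hj h2
    have h5 := connected.dist_triangle (u := hv u i) (v := hv u k) (w := hv u j) (G := gr (CZ u))
    omega

include hd in
lemma distHub (L : LatW d u i0 Pt) (i j : ℕ) :
    (gr (CZ u)).dist (hv u i) (hv u j) ≤ 2 * d (Pt i) (Pt j) + 2 + 20000 * i0 := by
  have key : ∀ i, ∃ i', i0 ≤ i' ∧ Pt i' = Pt i ∧ (gr (CZ u)).dist (hv u i) (hv u i') ≤ 10000 * i0 := by
    intro i
    rcases le_total i0 i with h | h
    · exact ⟨i, h, rfl, by simp⟩
    · refine ⟨i0, le_rfl, (L.s5 i h).symm, ?_⟩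
      have := dist_low (u := u) i (i0 - i)
      rw [Nat.add_sub_cancel' h] at this
      refine this.trans ?_
      exact Nat.mul_le_mul_left _ (Nat.sub_le _ _)
  obtain ⟨i', hi', ei', di⟩ := key i
  obtain ⟨j', hj', ej', dj⟩ := key j
  have h1 := distFar hd L _ i' j' hi' hj' rfl
  rw [ei', ej'] at h1
  have h2 := connected.dist_triangle (u := hv u i) (v := hv u i') (w := hv u j) (G := gr (CZ u))
  have h3 := connected.dist_triangle (u := hv u i') (v := hv u j') (w := hv u j) (G := gr (CZ u))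
  rw [SimpleGraph.dist_comm] at dj
  omega

/-- the far end of an edge -/
def few (Pt : ℕ → W) (e : (CZ u).E) : W :=
  match e with
  | Sum.inl e => Pt (e.1.i + 1)
  | Sum.inr x => Pt x.1.2

/-- base hubs of the points of an edge -/
lemma biPt (Pt : ℕ → W) (e : (CZ u).E) {t : ℕ} (ht : t ≤ (CZ u).len e) :
    Pt (bi (pt e t)) = Pt (ei e) ∨ Pt (bi (pt e t)) = few Pt e := by
  have h2 := (CZ u).two_le e
  rcases Nat.eq_zero_or_pos t with h0 | h0
  · subst h0
    left
    rcases e with e | x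
    · have h : (pt (Y := CZ u) (Sum.inl e) 0).1 = Sum.inl (Ps e.1.i e.1.s e.1.l) := pt_zero _
      rw [bi_Ps h, if_neg (by have := e.2.2.1; omega)]
      rfl
    · have h : (pt (Y := CZ u) (Sum.inr x) 0).1 = Sum.inl (Nd.hub x.1.1) := pt_zero _
      rw [bi_hub h]
      rfl
  · rcases Nat.lt_or_ge t ((CZ u).len e) with h1 | h1
    · left
      rw [bi_mid (pt_mid e h0 h1)]
    · rcases e with e | x
      · have h : (pt (Y := CZ u) (Sum.inl e) t).1 = Sum.inl (Ps e.1.i e.1.s (e.1.l + 1)) :=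
          pt_len _ h1
        by_cases h25 : e.1.l + 1 = 25
        · right
          rw [bi_Ps h, if_pos h25]
          rfl
        · left
          rw [bi_Ps h, if_neg h25]
          rfl
      · have h : (pt (Y := CZ u) (Sum.inr x) t).1 = Sum.inl (Nd.hub x.1.2) := pt_len _ h1
        right
        rw [bi_hub h]
        rfl

include hd in
lemma lipEdge (L : LatW d u i0 Pt) (e : (CZ u).E) {t t' : ℕ} (ht : t ≤ (CZ u).len e)
    (ht' : t' ≤ (CZ u).len e) : d (Pt (bi (pt e t))) (Pt (bi (pt e t'))) ≤ 3 := by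
  have hb : d (Pt (ei e)) (few Pt e) ≤ 3 := by
    rcases e with e | x
    · exact L.s1 e.1.i
    · exact (L.s3 x.1.1 x.1.2 x.2).trans (by omega)
  rcases biPt Pt e ht with hc | hc <;> rcases biPt Pt e ht' with hc' | hc' <;> rw [hc, hc']
  · rw [hd.self]; omega
  · exact hb
  · rw [hd.symm]; exact hb
  · rw [hd.self]; omega

include hd in
lemma lipAdj (L : LatW d u i0 Pt) {v w : Vx (CZ u)} (h : (gr (CZ u)).Adj v w) :
    d (Pt (bi v)) (Pt (bi w)) ≤ 3 := by
  obtain ⟨e, t, ht, ⟨rfl, rfl⟩ | ⟨rfl, rfl⟩⟩ := h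
  · exact lipEdge hd L e (by omega) (by omega)
  · exact lipEdge hd L e (by omega) (by omega)

include hd in
lemma lipWalk (L : LatW d u i0 Pt) {v w : Vx (CZ u)} (p : (gr (CZ u)).Walk v w) :
    d (Pt (bi v)) (Pt (bi w)) ≤ 3 * p.length := by
  induction p with
  | nil => rw [hd.self]; omega
  | @cons a b c h p ih =>
    have h1 := lipAdj hd L h
    have h2 := hd.tri (Pt (bi a)) (Pt (bi b)) (Pt (bi c))
    rw [SimpleGraph.Walk.length_cons]
    omega

include hd in
lemma lipD (L : LatW d u i0 Pt) (v w : Vx (CZ u)) :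
    d (Pt (bi v)) (Pt (bi w)) ≤ 3 * (gr (CZ u)).dist v w := by
  obtain ⟨p, hp⟩ := (connected.preconnected v w).exists_walk_length_eq_dist
  rw [← hp]
  exact lipWalk hd L p

include hd in
theorem upperD (L : LatW d u i0 Pt) (v w : Vx (CZ u)) :
    (gr (CZ u)).dist v w ≤ 2 * d (Pt (bi v)) (Pt (bi w)) + (40002 + 20000 * i0) := by
  have h1 := dist_base v
  have h2 := dist_base w
  have h3 := distHub hd L (bi v) (bi w)
  have h4 := connected.dist_triangle (u := v) (v := hv u (bi v)) (w := w) (G := gr (CZ u))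
  have h5 := connected.dist_triangle (u := hv u (bi v)) (v := hv u (bi w)) (w := w) (G := gr (CZ u))
  rw [SimpleGraph.dist_comm] at h2
  omega

end

end Pool.Agent.Y225.GR
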