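import Mathlib
import Pool.Agent.Y225.GR.Lat

/-!
From a tour to the data of the network.
-/

open Finset

namespace Pool.Agent.Y225.GR

open Pool.Agent.H575R3.Net Pool.Agent.H575R3.ZZ

lemma DP_mono (M : ℕ) {a b : ℕ} (h : a ≤ b) : DP M a ≤ DP M b := by
  unfold DP
  refine Nat.mul_le_mul (by omega) (Nat.mul_le_mul (by omega) ?_)
  have := Nat.mul_le_mul_left (M ^ 6) (show a + 1 ≤ b + 1 by omega)
  omega

/-- the constant in the bound for the number of hubs -/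
def CC (M : ℕ) : ℕ := 22 * (M ^ 6 + 2) + 1

lemma DP_le (M i : ℕ) : (i + 1) + DP M (i + 1) + 1 ≤ CC M * (i + 3) ^ 3 := by
  unfold DP CC
  have h1 : M ^ 6 * (i + 1 + 1) + 2 ≤ (M ^ 6 + 2) * (i + 3) := by
    have : (M ^ 6 + 2) * (i + 3) = M ^ 6 * (i + 1 + 1) + (M ^ 6 + (2 * i + 6)) := by ring
    omega
  have h2 : (i + 1 + 3) * ((8 * (i + 1) + 25) * (M ^ 6 * (i + 1 + 1) + 2)) ≤
      (2 * (i + 3)) * ((11 * (i + 3)) * ((M ^ 6 + 2) * (i + 3))) :=
    Nat.mul_le_mul (by omega) (Nat.mul_le_mul (by omega) h1)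
  have h3 : (22 * (M ^ 6 + 2) + 1) * (i + 3) ^ 3 =
      (2 * (i + 3)) * ((11 * (i + 3)) * ((M ^ 6 + 2) * (i + 3))) + (i + 3) ^ 3 := by ring
  have h4 : i + 3 ≤ (i + 3) ^ 3 := Nat.le_self_pow (by norm_num) _
  omega

lemma exists_i1 (C : ℕ) : ∃ i0 : ℕ, 1 ≤ i0 ∧ ∀ i : ℕ, i0 ≤ i + 1 →
    (22500 : ℝ) * (((C : ℝ) * ((i : ℝ) + 3) ^ 3) * ((C : ℝ) * ((i : ℝ) + 3) ^ 3)) ≤ (3 / 2) ^ i := by
  have h := tendsto_pow_const_mul_const_pow_of_abs_lt_one 6 (r := (2 / 3 : ℝ))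
    (by rw [abs_of_pos (by norm_num)]; norm_num)
  have hε : (0 : ℝ) < (2 / 3) ^ 3 / (22500 * ((C : ℝ) ^ 2 + 1)) := by positivity
  have h2 := (h.eventually (gt_mem_nhds hε)).exists_forall_of_atTop
  obtain ⟨n0, hn0⟩ := h2
  refine ⟨n0 + 1, by omega, fun i hi => ?_⟩
  have h3 := hn0 (i + 3) (by omega)
  have h4 : (0 : ℝ) < (3 / 2) ^ (i + 3) := by positivity
  have h5 : ((i + 3 : ℕ) : ℝ) ^ 6 * (2 / 3) ^ (i + 3) * (3 / 2) ^ (i + 3) = ((i : ℝ) + 3) ^ 6 := by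
    rw [mul_assoc, ← mul_pow]
    norm_num
  have h6 := mul_le_mul_of_nonneg_right h3.le h4.le
  rw [h5] at h6
  have h7 : ((2 : ℝ) / 3) ^ 3 / (22500 * ((C : ℝ) ^ 2 + 1)) * (3 / 2) ^ (i + 3) =
      (3 / 2) ^ i / (22500 * ((C : ℝ) ^ 2 + 1)) := by
    rw [pow_add]
    ring
  rw [h7] at h6
  have h8 : (22500 : ℝ) * (((C : ℝ) * ((i : ℝ) + 3) ^ 3) * ((C : ℝ) * ((i : ℝ) + 3) ^ 3)) ≤
      ((i : ℝ) + 3) ^ 6 * (22500 * ((C : ℝ) ^ 2 + 1)) := by
    have : (0 : ℝ) ≤ ((i : ℝ) + 3) ^ 6 := by positivity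
    nlinarith
  rw [le_div_iff₀ (by positivity)] at h6
  linarith

section

variable {W : Type} {d : W → W → ℕ} (hd : GM d) {q : ℕ → W} {M : ℕ} (T : Tour d q (DP M))

/-- the position of hub `i` -/
def PW (q : ℕ → W) (i0 i : ℕ) : W := q (i - i0)

/-- the hubs joined to hub `i` by a long link -/
def upw (d : W → W → ℕ) (q : ℕ → W) (M i0 i : ℕ) : Finset ℕ :=
  if i < i0 then ∅ else (range (i + DP M i + 1)).filter
    (fun j => i < j ∧ d (PW q i0 i) (PW q i0 j) ≤ 1)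

/-- the network of a tour -/
noncomputable def uw (d : W → W → ℕ) (q : ℕ → W) (M : ℕ) : (i0 : ℕ) → (h1 : 1 ≤ i0) →
    (h2 : ∀ i : ℕ, i0 ≤ i + 1 → (22500 : ℝ) * (((CC M : ℕ) : ℝ) * ((i : ℝ) + 3) ^ 3 *
      (((CC M : ℕ) : ℝ) * ((i : ℝ) + 3) ^ 3)) ≤ (3 / 2) ^ i) → Up :=
  fun i0 h1 h2 =>
  { up := upw d q M i0
    lt := by
      intro i j hj
      unfold upw at hj
      split_ifs at hj
      · simp at hj
      · exact (Finset.mem_filter.mp hj).2.1
    z := by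
      unfold upw
      rw [if_pos (by omega)]
    E := by
      intro i
      unfold upw
      split_ifs with hi
      · simp
        positivity
      · refine le_trans ?_ (h2 i (by omega))
        apply mul_le_mul_of_nonneg_left _ (by norm_num)
        have hB := DP_le M i
        have hB' : (((i + 1) + DP M (i + 1) + 1 : ℕ) : ℝ) ≤ ((CC M : ℕ) : ℝ) * ((i : ℝ) + 3) ^ 3 := by
          have : (((i + 1) + DP M (i + 1) + 1 : ℕ) : ℝ) ≤ ((CC M * (i + 3) ^ 3 : ℕ) : ℝ) := by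
            exact_mod_cast hB
          push_cast at this ⊢
          exact this
        have h3 : ∑ j ∈ (range ((i + 1) + DP M (i + 1) + 1)).filter
            (fun j => i + 1 < j ∧ d (PW q i0 (i + 1)) (PW q i0 j) ≤ 1),
              ((j : ℝ) - ((i + 1 : ℕ) : ℝ)) ≤
            ∑ j ∈ (range ((i + 1) + DP M (i + 1) + 1)).filter
            (fun j => i + 1 < j ∧ d (PW q i0 (i + 1)) (PW q i0 j) ≤ 1),
              (((CC M : ℕ) : ℝ) * ((i : ℝ) + 3) ^ 3) := by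
          apply Finset.sum_le_sum
          intro j hj
          have hj2 := Finset.mem_range.mp (Finset.mem_filter.mp hj).1
          have hj3 : (j : ℝ) ≤ (((i + 1) + DP M (i + 1) + 1 : ℕ) : ℝ) := by exact_mod_cast hj2.le
          have hj4 : (0 : ℝ) ≤ ((i + 1 : ℕ) : ℝ) := by positivity
          linarith
        refine h3.trans ?_
        rw [Finset.sum_const, nsmul_eq_mul]
        apply mul_le_mul_of_nonneg_right _ (by positivity)
        refine le_trans ?_ hB'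
        have := Finset.card_filter_le (range ((i + 1) + DP M (i + 1) + 1))
          (fun j => i + 1 < j ∧ d (PW q i0 (i + 1)) (PW q i0 j) ≤ 1)
        rw [Finset.card_range] at this
        exact_mod_cast this }

include hd T in
theorem latW (i0 : ℕ) (h1 : 1 ≤ i0) (h2 : ∀ i : ℕ, i0 ≤ i + 1 →
    (22500 : ℝ) * (((CC M : ℕ) : ℝ) * ((i : ℝ) + 3) ^ 3 *
      (((CC M : ℕ) : ℝ) * ((i : ℝ) + 3) ^ 3)) ≤ (3 / 2) ^ i) :
    LatW d (uw d q M i0 h1 h2) i0 (PW q i0) := by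
  refine ⟨?_, ?_, ?_, ?_, ?_⟩
  · intro i
    unfold PW
    rcases Nat.lt_or_ge i i0 with h | h
    · have e1 : i - i0 = 0 := by omega
      have e2 : i + 1 - i0 = 0 := by omega
      rw [e1, e2, hd.self]
      omega
    · have e2 : i + 1 - i0 = (i - i0) + 1 := by omega
      rw [e2]
      exact T.t1 _
  · intro i hi j hij hl
    show j ∈ upw d q M i0 i
    unfold upw
    rw [if_neg (by omega), Finset.mem_filter, Finset.mem_range]
    refine ⟨?_, hij, hl⟩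
    unfold PW at hl
    have h3 := T.t3 _ _ hl
    have h4 : DP M (i - i0) ≤ DP M i := DP_mono M (by omega)
    omega
  · intro i j hj
    have hj' : j ∈ upw d q M i0 i := hj
    unfold upw at hj'
    split_ifs at hj'
    · simp at hj'
    · exact (Finset.mem_filter.mp hj').2.2
  · intro z
    obtain ⟨k, hk⟩ := T.t2 z
    refine ⟨i0 + k, by omega, ?_⟩
    unfold PW
    rw [Nat.add_sub_cancel_left]
    exact hk
  · intro i hi
    unfold PW
    have e1 : i - i0 = 0 := by omega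
    have e2 : i0 - i0 = 0 := by omega
    rw [e1, e2]

include hd T in
theorem exists_latW : ∃ (u : Up) (i0 : ℕ) (Pt : ℕ → W), LatW d u i0 Pt := by
  obtain ⟨i0, h1, h2⟩ := exists_i1 (CC M)
  exact ⟨_, _, _, latW hd T i0 h1 h2⟩

end

end Pool.Agent.Y225.GR
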