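import Mathlib
import Pool.Agent.Y225.GR.Energy

/-!
Instances: graph distances, lattices.
-/

open Finset

namespace Pool.Agent.Y225.GR

section graph

variable {α : Type} {G : SimpleGraph α}

lemma gm_dist (hG : G.Connected) : GM G.dist := by
  refine ⟨fun x => SimpleGraph.dist_self, fun x y => SimpleGraph.dist_comm,
    fun x y z => hG.dist_triangle, fun x y n hn => ?_⟩
  obtain ⟨p, hp⟩ := (hG.preconnected x y).exists_walk_length_eq_dist
  cases p with
  | nil =>
    rw [SimpleGraph.dist_self] at hn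
    omega
  | @cons _ z _ h p =>
    rw [SimpleGraph.Walk.length_cons] at hp
    have h1 : G.dist x z = 1 := SimpleGraph.dist_eq_one_iff_adj.mpr h
    have h2 := SimpleGraph.dist_le p
    have h3 : G.dist x y ≤ G.dist x z + G.dist z y := hG.dist_triangle
    exact ⟨z, h1, by omega⟩

lemma growth_of_finset {α : Type} {d : α → α → ℕ} {o : α} {M : ℕ}
    (h : ∀ n, ∃ s : Finset α, (∀ a, d o a ≤ n → a ∈ s) ∧ s.card ≤ M ^ (n + 1)) : Growth d o M := by
  intro n
  obtain ⟨s, h1, h2⟩ := h n
  have h3 : {a | d o a ≤ n} ⊆ (s : Set α) := fun a ha => h1 a ha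
  refine ⟨s.finite_toSet.subset h3, ?_⟩
  refine (Set.ncard_le_ncard h3 s.finite_toSet).trans ?_
  rw [Set.ncard_coe_finset]
  exact h2

lemma growth_to_finset {α : Type} {d : α → α → ℕ} {o : α} {M : ℕ} (h : Growth d o M) (n : ℕ) :
    ∃ s : Finset α, (∀ a, d o a ≤ n → a ∈ s) ∧ s.card ≤ M ^ (n + 1) := by
  obtain ⟨h1, h2⟩ := h n
  refine ⟨h1.toFinset, fun a ha => ?_, ?_⟩
  · rw [Set.Finite.mem_toFinset]
    exact ha
  · rw [Set.ncard_eq_toFinset_card _ h1] at h2
    exact h2

lemma growth_dist (hG : G.Connected) {Δ : ℕ} (hΔ : ∀ v, (G.neighborSet v).encard ≤ Δ) (o : α) :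
    Growth G.dist o (Δ + 1) := by
  classical
  have hfin : ∀ v, (G.neighborSet v).Finite := fun v =>
    Set.finite_of_encard_le_coe (hΔ v)
  apply growth_of_finset
  intro n
  induction n with
  | zero =>
    refine ⟨{o}, fun a ha => ?_, by simp⟩
    have : G.dist o a = 0 := by omega
    rw [Finset.mem_singleton]
    exact ((hG.preconnected o a).dist_eq_zero_iff.mp this).symm
  | succ n ih =>
    obtain ⟨s, h1, h2⟩ := ih
    refine ⟨s.biUnion (fun v => insert v (hfin v).toFinset), fun a ha => ?_, ?_⟩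
    · rw [Finset.mem_biUnion]
      rcases Nat.lt_or_ge (G.dist o a) (n + 1) with h3 | h3
      · exact ⟨a, h1 a (by omega), Finset.mem_insert_self _ _⟩
      · have h4 : G.dist a o = n + 1 := by rw [SimpleGraph.dist_comm]; omega
        obtain ⟨z, h5, h6⟩ := (gm_dist hG).step _ _ _ h4
        refine ⟨z, h1 z (by rw [SimpleGraph.dist_comm]; omega), ?_⟩
        rw [Finset.mem_insert]
        right
        rw [Set.Finite.mem_toFinset, SimpleGraph.mem_neighborSet]
        exact (SimpleGraph.dist_eq_one_iff_adj.mp h5).symm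
    · refine (Finset.card_biUnion_le_card_mul s _ (Δ + 1) ?_).trans ?_
      · intro v _
        refine (Finset.card_insert_le _ _).trans ?_
        have h3 := hΔ v
        rw [(hfin v).encard_eq_coe_toFinset_card] at h3
        have h4 : (hfin v).toFinset.card ≤ Δ := by exact_mod_cast h3
        omega
      · calc s.card * (Δ + 1) ≤ (Δ + 1) ^ (n + 1) * (Δ + 1) := Nat.mul_le_mul_right _ h2
          _ = (Δ + 1) ^ (n + 1 + 1) := by ring

lemma growth_mono {α : Type} {d : α → α → ℕ} {o : α} {M M' : ℕ} (h : M ≤ M')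
    (hg : Growth d o M) : Growth d o M' :=
  fun n => ⟨(hg n).1, (hg n).2.trans (Nat.pow_le_pow_left h _)⟩

lemma dist_boxProd {β : Type} {H : SimpleGraph β} (hG : G.Connected) (hH : H.Connected) :
    (G □ H).dist = pd G.dist H.dist := by
  funext x y
  have h1 : (G □ H).edist x y = G.edist x.1 y.1 + H.edist x.2 y.2 := SimpleGraph.edist_boxProd x y
  rw [← ((hG.boxProd hH).preconnected x y).coe_dist_eq_edist,
    ← (hG.preconnected x.1 y.1).coe_dist_eq_edist,
    ← (hH.preconnected x.2 y.2).coe_dist_eq_edist] at h1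
  unfold pd
  exact_mod_cast h1

end graph

section map

variable {W V : Type} {d : W → W → ℕ}

lemma gm_map (hd : GM d) (e : V ≃ W) {d' : V → V → ℕ} (he : ∀ x y, d' x y = d (e x) (e y)) :
    GM d' := by
  refine ⟨fun x => by rw [he, hd.self], fun x y => by rw [he, he, hd.symm], fun x y z => ?_,
    fun x y n hn => ?_⟩
  · rw [he, he, he]
    exact hd.tri _ _ _
  · rw [he] at hn
    obtain ⟨z, h1, h2⟩ := hd.step _ _ _ hn
    refine ⟨e.symm z, ?_, ?_⟩
    · rw [he, e.apply_symm_apply]; exact h1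
    · rw [he, e.apply_symm_apply]; exact h2

lemma growth_map {o : W} {M : ℕ} (hg : Growth d o M) (e : V ≃ W) {d' : V → V → ℕ}
    (he : ∀ x y, d' x y = d (e x) (e y)) : Growth d' (e.symm o) M := by
  classical
  apply growth_of_finset
  intro n
  obtain ⟨s, h1, h2⟩ := growth_to_finset hg n
  refine ⟨s.map e.symm.toEmbedding, fun a ha => ?_, by rw [Finset.card_map]; exact h2⟩
  rw [Finset.mem_map]
  rw [he, e.apply_symm_apply] at ha
  exact ⟨e a, h1 _ ha, by simp⟩

lemma tour_map {q : ℕ → W} {D : ℕ → ℕ} (T : Tour d q D) (e : V ≃ W) {d' : V → V → ℕ}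
    (he : ∀ x y, d' x y = d (e x) (e y)) : Tour d' (fun i => e.symm (q i)) D := by
  refine ⟨fun i => ?_, fun z => ?_, fun i j h => ?_⟩
  · rw [he, e.apply_symm_apply, e.apply_symm_apply]
    exact T.t1 i
  · obtain ⟨i, hi⟩ := T.t2 (e z)
    exact ⟨i, by simp only [hi, e.symm_apply_apply]⟩
  · rw [he, e.apply_symm_apply, e.apply_symm_apply] at h
    exact T.t3 i j h

lemma growth_prod {α β : Type} {dA : α → α → ℕ} {dB : β → β → ℕ} {oa : α} {ob : β} {M M' : ℕ}
    (gA : Growth dA oa M) (gB : Growth dB ob M') : Growth (pd dA dB) (oa, ob) (M * M') := by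
  classical
  apply growth_of_finset
  intro n
  obtain ⟨s, h1, h2⟩ := growth_to_finset gA n
  obtain ⟨t, h3, h4⟩ := growth_to_finset gB n
  refine ⟨s ×ˢ t, fun a ha => ?_, ?_⟩
  · unfold pd at ha
    simp only at ha
    exact Finset.mem_product.mpr ⟨h1 _ (by omega), h3 _ (by omega)⟩
  · rw [Finset.card_product, mul_pow]
    exact Nat.mul_le_mul h2 h4

end map

section lattice

/-- the distance of the integers -/
def dz (x y : ℤ) : ℕ := (x - y).natAbs

lemma gm_dz : GM dz := by
  refine ⟨fun x => by unfold dz; omega, fun x y => by unfold dz; omega,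
    fun x y z => by unfold dz; omega, fun x y n hn => ?_⟩
  unfold dz at *
  rcases lt_or_ge x y with h | h
  · exact ⟨x + 1, by omega, by omega⟩
  · exact ⟨x - 1, by omega, by omega⟩

lemma growth_dz : Growth dz 0 3 := by
  apply growth_of_finset
  intro n
  refine ⟨Finset.Icc (-(n : ℤ)) n, fun a ha => ?_, ?_⟩
  · unfold dz at ha
    rw [Finset.mem_Icc]
    omega
  · rw [Int.card_Icc]
    have h : ∀ n : ℕ, 2 * n + 1 ≤ 3 ^ (n + 1) := by
      intro n
      induction n with
      | zero => norm_num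
      | succ n ih =>
        have : 3 ^ (n + 1 + 1) = 3 * 3 ^ (n + 1) := by ring
        omega
    have := h n
    omega

/-- the distance of the lattice of dimension `k` -/
def dk (k : ℕ) (x y : Fin k → ℤ) : ℕ := ∑ i, (x i - y i).natAbs

/-- splitting off the first coordinate -/
def spl (k : ℕ) : (Fin (k + 1) → ℤ) ≃ ℤ × (Fin k → ℤ) where
  toFun x := (x 0, fun i => x i.succ)
  invFun p := Fin.cons p.1 p.2
  left_inv x := by
    funext i
    refine Fin.cases ?_ (fun j => ?_) i
    · simp
    · simp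
  right_inv p := by
    refine Prod.ext ?_ ?_
    · simp
    · funext i
      simp

lemma dk_spl (k : ℕ) (x y : Fin (k + 1) → ℤ) : dk (k + 1) x y = pd dz (dk k) (spl k x) (spl k y) := by
  unfold dk pd dz spl
  rw [Fin.sum_univ_succ]
  rfl

lemma gm_dk (k : ℕ) : GM (dk k) := by
  induction k with
  | zero =>
    refine ⟨fun x => by simp [dk], fun x y => by simp [dk], fun x y z => by simp [dk],
      fun x y n hn => ?_⟩
    simp [dk] at hn
  | succ k ih => exact gm_map (pd_gm gm_dz ih) (spl k) (dk_spl k)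

lemma growth_dk (k : ℕ) : ∃ (o : Fin k → ℤ) (M : ℕ), Growth (dk k) o M := by
  induction k with
  | zero =>
    refine ⟨fun _ => 0, 1, growth_of_finset fun n => ⟨{fun _ => 0}, fun a _ => ?_, by simp⟩⟩
    rw [Finset.mem_singleton]
    exact Subsingleton.elim _ _
  | succ k ih =>
    obtain ⟨o, M, h⟩ := ih
    exact ⟨_, _, growth_map (growth_prod growth_dz h) (spl k) (dk_spl k)⟩

theorem tour_dk (k : ℕ) : ∃ (q : ℕ → Fin (k + 2) → ℤ) (M : ℕ), Tour (dk (k + 2)) q (DP M) := by
  obtain ⟨o, M, h⟩ := growth_dk (k + 1)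
  have h1 : Growth dz 0 (3 + M) := growth_mono (by omega) growth_dz
  have h2 : Growth (dk (k + 1)) o (3 + M) := growth_mono (by omega) h
  obtain ⟨q, T⟩ := exists_tour gm_dz (gm_dk (k + 1)) (by omega) h1 h2
  exact ⟨_, 3 + M, tour_map T (spl (k + 1)) (dk_spl (k + 1))⟩

end lattice

theorem tour_box {A B : Type} {GA : SimpleGraph A} {GB : SimpleGraph B} [Infinite A] [Infinite B]
    (hA : GA.Connected) (hB : GB.Connected) {Δ : ℕ} (h1 : ∀ v, (GA.neighborSet v).encard ≤ Δ)
    (h2 : ∀ v, (GB.neighborSet v).encard ≤ Δ) :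
    ∃ q, Tour (GA □ GB).dist q (DP (Δ + 1)) := by
  have a : A := Classical.arbitrary A
  have b : B := Classical.arbitrary B
  rw [dist_boxProd hA hB]
  exact exists_tour (gm_dist hA) (gm_dist hB) (by omega) (growth_dist hA h1 a) (growth_dist hB h2 b)

end Pool.Agent.Y225.GR
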