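import Mathlib
import Pool.Agent.H575R3.NetGraph
import Pool.Agent.Y225.GR.Inst

/-!
The network of a tour is non-amenable.
-/

open Finset

namespace Pool.Agent.Y225.GR

open Pool.Agent.H575R3.Net Pool.Agent.H575R3.ZZ

noncomputable section

variable {u : Up}

variable (u) in
/-- the part of the graph without the long links -/
def emb (v : Vx CY) : Vx (CZ u) :=
  ⟨Sum.map id (fun p : CY.E × ℕ => ((Sum.inl p.1 : (CZ u).E), p.2)) v.1, by
    rcases v with ⟨n | p, h⟩
    · obtain ⟨e, he⟩ := h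
      exact ⟨Sum.inl e, he⟩
    · exact h⟩

lemma emb_pt (e : CY.E) (t : ℕ) : emb u (pt e t) = pt (Y := CZ u) (Sum.inl e) t := by
  apply Subtype.ext
  show Sum.map id _ (rpt e t) = rpt (Y := CZ u) (Sum.inl e) t
  unfold rpt
  have hl : (CZ u).len (Sum.inl e) = CY.len e := rfl
  rw [hl]
  split_ifs <;> rfl

lemma emb_inj : Function.Injective (emb u) := by
  intro v w h
  have h1 : Sum.map id (fun p : CY.E × ℕ => ((Sum.inl p.1 : (CZ u).E), p.2)) v.1 =
      Sum.map id (fun p : CY.E × ℕ => ((Sum.inl p.1 : (CZ u).E), p.2)) w.1 := congrArg Subtype.val h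
  apply Subtype.ext
  rcases hv : v.1 with n | p <;> rcases hw : w.1 with n' | p' <;> rw [hv, hw] at h1
  · have := Sum.inl.inj h1
    simp only [id_eq] at this
    rw [this]
  · cases h1
  · cases h1
  · have h2 := Sum.inr.inj h1
    have h3 := (Prod.mk.inj h2).1
    have h4 := (Prod.mk.inj h2).2
    have h5 : p.1 = p'.1 := Sum.inl.inj h3
    rw [Prod.ext h5 h4]

lemma emb_adj {v w : Vx CY} (h : (gr CY).Adj v w) : (gr (CZ u)).Adj (emb u v) (emb u w) := by
  obtain ⟨e, t, ht, h⟩ := h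
  refine ⟨Sum.inl e, t, ht, ?_⟩
  rw [← emb_pt, ← emb_pt]
  rcases h with ⟨rfl, rfl⟩ | ⟨rfl, rfl⟩
  · exact Or.inl ⟨rfl, rfl⟩
  · exact Or.inr ⟨rfl, rfl⟩

lemma classify (v : Vx (CZ u)) : (∃ w, emb u w = v) ∨
    ∃ x : {x : ℕ × ℕ // Xv u x}, v = pt (Y := CZ u) (Sum.inr x) 1 := by
  obtain ⟨e, t, ht, rfl⟩ := Pool.Agent.H575R3.ZZ.exists_pt v
  rcases e with e | x
  · exact Or.inl ⟨pt e t, emb_pt e t⟩
  · have ht2 : t ≤ 2 := ht
    have hub : ∀ i : ℕ, ∃ w, emb u w = hv u i := by
      intro i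
      refine ⟨pt (ev i 0 0 (by positivity) (by omega)) 0, ?_⟩
      rw [emb_pt]
      apply eq_hv
      refine (pt_zero (Y := CZ u) _).trans ?_
      show Sum.inl (Ps i 0 0) = _
      simp [Ps]
    rcases Nat.lt_trichotomy t 1 with h | h | h
    · left
      have h0 : t = 0 := by omega
      subst h0
      obtain ⟨w, hw⟩ := hub x.1.1
      exact ⟨w, hw.trans (eq_hv u (pt_zero (Y := CZ u) _)).symm⟩
    · subst h
      exact Or.inr ⟨x, rfl⟩
    · left
      have h0 : t = 2 := by omega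
      subst h0
      obtain ⟨w, hw⟩ := hub x.1.2
      exact ⟨w, hw.trans (eq_hv u (pt_len (Y := CZ u) _ le_rfl)).symm⟩

lemma emb_hub (i : ℕ) : ∃ w, emb u w = hv u i := by
  refine ⟨pt (ev i 0 0 (by positivity) (by omega)) 0, ?_⟩
  rw [emb_pt]
  apply eq_hv
  refine (pt_zero (Y := CZ u) _).trans ?_
  show Sum.inl (Ps i 0 0) = _
  simp [Ps]

lemma hv_inj : Function.Injective (hv u) := by
  intro i j h
  have h1 : (hv u i).1 = (hv u j).1 := by rw [h]
  rw [hv_val, hv_val] at h1
  have := Sum.inl.inj h1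
  simpa using this

lemma card_up (i : ℕ) : (u.up (i + 1)).card ≤ 2 ^ i := by
  have h1 := u.E i
  have h2 : ((u.up (i + 1)).card : ℝ) ≤ ∑ j ∈ u.up (i + 1), ((j : ℝ) - ((i + 1 : ℕ) : ℝ)) := by
    have : ∑ j ∈ u.up (i + 1), (1 : ℝ) ≤ ∑ j ∈ u.up (i + 1), ((j : ℝ) - ((i + 1 : ℕ) : ℝ)) := by
      apply Finset.sum_le_sum
      intro j hj
      have h3 : i + 1 + 1 ≤ j := u.lt (i + 1) j hj
      have h4 : ((i + 1 + 1 : ℕ) : ℝ) ≤ (j : ℝ) := by exact_mod_cast h3
      push_cast at h4 ⊢
      linarith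
    rwa [Finset.sum_const, nsmul_eq_mul, mul_one] at this
  have h3 : (3 / 2 : ℝ) ^ i ≤ 2 ^ i := pow_le_pow_left₀ (by norm_num) (by norm_num) i
  have h4 : (0 : ℝ) ≤ ((u.up (i + 1)).card : ℝ) := by positivity
  have h5 : ((u.up (i + 1)).card : ℝ) ≤ 2 ^ i := by nlinarith
  exact_mod_cast h5

lemma sum_up (n : ℕ) : ∑ i ∈ range (n + 1), (u.up i).card ≤ 2 ^ n := by
  rw [Finset.sum_range_succ', u.z, Finset.card_empty, Nat.add_zero]
  have h1 : ∑ i ∈ range n, (u.up (i + 1)).card ≤ ∑ i ∈ range n, 2 ^ i :=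
    Finset.sum_le_sum fun i _ => card_up i
  have h2 : ∀ n : ℕ, ∑ i ∈ range n, 2 ^ i + 1 = 2 ^ n := by
    intro n
    induction n with
    | zero => simp
    | succ n ih => rw [Finset.sum_range_succ, pow_succ]; omega
  have := h2 n
  omega

theorem nonamen (S : Finset (Vx (CZ u))) : (1 / 3576 : ℝ) * S.card ≤
    ((∑ v ∈ S, (((gr (CZ u)).neighborFinset v).filter (fun w => w ∉ S)).card : ℕ) : ℝ) := by
  classical
  set T1 := S.filter (fun v => ∃ w, emb u w = v) with hT1
  set T2 := S.filter (fun v => ¬ ∃ w, emb u w = v) with hT2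
  set S1 : Finset (Vx CY) := S.preimage (emb u) emb_inj.injOn with hS1
  have hmem1 : ∀ w, w ∈ S1 ↔ emb u w ∈ S := fun w => by rw [hS1, Finset.mem_preimage]
  have hT1i : T1 = S1.image (emb u) := by
    ext v
    rw [hT1, Finset.mem_filter, Finset.mem_image]
    constructor
    · rintro ⟨hv, w, rfl⟩
      exact ⟨w, (hmem1 w).mpr hv, rfl⟩
    · rintro ⟨w, hw, rfl⟩
      exact ⟨(hmem1 w).mp hw, w, rfl⟩
  have hc1 : T1.card = S1.card := by rw [hT1i, Finset.card_image_of_injective _ emb_inj]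
  have hcS : S.card = T1.card + T2.card :=
    (Finset.card_filter_add_card_filter_not _).symm
  let bd : Vx (CZ u) → ℕ := fun v => (((gr (CZ u)).neighborFinset v).filter (fun w => w ∉ S)).card
  have hsum : ∑ v ∈ S, bd v = ∑ v ∈ T1, bd v + ∑ v ∈ T2, bd v :=
    (Finset.sum_filter_add_sum_filter_not S _ _).symm
  obtain ⟨b1, hb1e⟩ : ∃ b : ℕ, b = ∑ v ∈ T1, bd v := ⟨_, rfl⟩
  obtain ⟨b2, hb2e⟩ : ∃ b : ℕ, b = ∑ v ∈ T2, bd v := ⟨_, rfl⟩
  -- the part without the long links
  have hb1 : (1 / 1787 : ℝ) * T1.card ≤ (b1 : ℝ) := by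
    rw [hc1, hb1e]
    refine (nonamenable S1).trans ?_
    rw [hT1i, Finset.sum_image (fun a _ b _ h => emb_inj h)]
    have : ∑ v ∈ S1, (((gr CY).neighborFinset v).filter (fun w => w ∉ S1)).card ≤
        ∑ v ∈ S1, bd (emb u v) := by
      apply Finset.sum_le_sum
      intro v _
      apply Finset.card_le_card_of_injOn (emb u)
      · intro w hw
        rw [Finset.mem_coe, Finset.mem_filter, SimpleGraph.mem_neighborFinset] at hw
        rw [Finset.mem_coe, Finset.mem_filter, SimpleGraph.mem_neighborFinset]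
        exact ⟨emb_adj hw.1, fun h => hw.2 ((hmem1 w).mpr h)⟩
      · exact emb_inj.injOn
    exact_mod_cast this
  -- the hubs
  set H : Finset ℕ := S.preimage (hv u) hv_inj.injOn with hH
  have hmemH : ∀ i, i ∈ H ↔ hv u i ∈ S := fun i => by rw [hH, Finset.mem_preimage]
  -- the middle points of the links from a hub in `S`
  set T3 := T2.filter (fun v => bd v = 0) with hT3
  have hT23 : T2.card ≤ b2 + T3.card := by
    rw [hb2e]
    have h1 : T2.card = (T2.filter (fun v => bd v = 0)).card +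
        (T2.filter (fun v => ¬ bd v = 0)).card := (Finset.card_filter_add_card_filter_not _).symm
    have h2 : (T2.filter (fun v => ¬ bd v = 0)).card ≤ ∑ v ∈ T2, bd v := by
      rw [Finset.card_eq_sum_ones]
      refine (Finset.sum_le_sum (g := bd) ?_).trans
        (Finset.sum_le_sum_of_subset (Finset.filter_subset _ _))
      intro v hv
      have := (Finset.mem_filter.mp hv).2
      omega
    rw [← hT3] at h1
    omega
  have hT3c : T3.card ≤ ∑ i ∈ H, (u.up i).card := by
    rw [← Finset.card_sigma]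
    have hch : ∀ v : Vx (CZ u), ∃ x : ℕ × ℕ, v ∈ T3 → ∃ h : Xv u x,
        v = pt (Y := CZ u) (Sum.inr ⟨x, h⟩) 1 := by
      intro v
      by_cases hv : v ∈ T3
      · obtain ⟨hv2, _⟩ := Finset.mem_filter.mp hv
        obtain ⟨_, hv3⟩ := Finset.mem_filter.mp hv2
        rcases classify v with h | ⟨x, hx⟩
        · exact absurd h hv3
        · exact ⟨x.1, fun _ => ⟨x.2, hx⟩⟩
      · exact ⟨(0, 0), fun h => absurd h hv⟩
    choose f hf using hch
    apply Finset.card_le_card_of_injOn (fun v => (⟨(f v).1, (f v).2⟩ : (_ : ℕ) × ℕ))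
    · intro v hvT
      obtain ⟨hx, hvx⟩ := hf v hvT
      rw [Finset.mem_coe, Finset.mem_sigma]
      refine ⟨?_, hx⟩
      rw [hmemH]
      by_contra hc
      have hadj : (gr (CZ u)).Adj v (hv u (f v).1) := by
        refine ⟨Sum.inr ⟨f v, hx⟩, 0, by show 0 < 2; omega, Or.inr ⟨?_, hvx⟩⟩
        exact (eq_hv u (pt_zero (Y := CZ u) _)).symm
      have h0 := (Finset.mem_filter.mp (Finset.mem_coe.mp hvT)).2
      have h1 : hv u (f v).1 ∈ ((gr (CZ u)).neighborFinset v).filter (fun w => w ∉ S) := by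
        rw [Finset.mem_filter, SimpleGraph.mem_neighborFinset]
        exact ⟨hadj, hc⟩
      have h2 := Finset.card_pos.mpr ⟨_, h1⟩
      have h3 : bd v = (((gr (CZ u)).neighborFinset v).filter (fun w => w ∉ S)).card := rfl
      omega
    · intro v hv w hw h
      obtain ⟨hx, hvx⟩ := hf v hv
      obtain ⟨hy, hwy⟩ := hf w hw
      simp only [Sigma.mk.injEq, heq_eq_eq] at h
      have h2 : f v = f w := Prod.ext h.1 h.2
      have h3 : ∀ (a b : ℕ × ℕ) (ha : Xv u a) (hb : Xv u b), a = b →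
          pt (Y := CZ u) (Sum.inr ⟨a, ha⟩) 1 = pt (Y := CZ u) (Sum.inr ⟨b, hb⟩) 1 := by
        rintro a b ha hb rfl
        rfl
      rw [hvx, hwy]
      exact h3 _ _ _ _ h2
  -- the largest hub
  have hbig : (T3.card : ℝ) ≤ 894 * (b1 : ℝ) := by
    rcases H.eq_empty_or_nonempty with hE | hne
    · rw [hE, Finset.sum_empty] at hT3c
      have h0 : T3.card = 0 := by omega
      rw [h0, Nat.cast_zero]
      exact mul_nonneg (by norm_num) (Nat.cast_nonneg _)
    · set I := H.max' hne with hI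
      have hIH : I ∈ H := H.max'_mem hne
      have h1 : ∑ i ∈ H, (u.up i).card ≤ 2 ^ I := by
        refine le_trans (Finset.sum_le_sum_of_subset ?_) (sum_up I)
        intro i hi
        rw [Finset.mem_range]
        have := H.le_max' i hi
        omega
      have hev : ∀ (s : ℕ) (hs : s < 2 ^ (I + 1)), (gr (CZ u)).Adj (hv u I)
          (pt (Y := CZ u) (ez u I s 0 hs (by omega)) 1) := by
        intro s hs
        refine ⟨ez u I s 0 hs (by omega), 0, ?_, Or.inl ⟨?_, rfl⟩⟩
        · show 0 < 400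
          omega
        · refine (eq_hv u ?_).symm
          rw [pt_zero]
          show Sum.inl (Ps I s 0) = _
          simp [Ps]
      let g : ℕ → Vx (CZ u) := fun s => if hs : s < 2 ^ (I + 1) then
        pt (Y := CZ u) (ez u I s 0 hs (by omega)) 1 else hv u I
      have hg : ∀ s (hs : s < 2 ^ (I + 1)), g s = pt (Y := CZ u) (ez u I s 0 hs (by omega)) 1 :=
        fun s hs => dif_pos hs
      have hginj : Set.InjOn g (range (2 ^ (I + 1)) : Finset ℕ) := by
        intro s hs s' hs' h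
        rw [Finset.mem_coe, Finset.mem_range] at hs hs'
        rw [hg s hs, hg s' hs'] at h
        have h2 : (pt (Y := CZ u) (ez u I s 0 hs (by omega)) 1).1 =
            (pt (Y := CZ u) (ez u I s' 0 hs' (by omega)) 1).1 := by rw [h]
        rw [pt_mid _ le_rfl (by show 1 < 400; omega), pt_mid _ le_rfl (by show 1 < 400; omega)] at h2
        have h3 := (Prod.mk.inj (Sum.inr.inj h2)).1
        have h4 := congrArg (fun e : Ed => e.s) (congrArg Subtype.val (Sum.inl.inj h3))
        exact h4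
      have hsub : (range (2 ^ (I + 1))).image g ⊆ T1 ∪
          ((gr (CZ u)).neighborFinset (hv u I)).filter (fun w => w ∉ S) := by
        intro v hv
        obtain ⟨s, hs, rfl⟩ := Finset.mem_image.mp hv
        rw [Finset.mem_range] at hs
        rw [Finset.mem_union]
        by_cases h : g s ∈ S
        · left
          rw [hT1, Finset.mem_filter]
          refine ⟨h, ?_⟩
          rw [hg s hs]
          exact ⟨pt (ev I s 0 hs (by omega)) 1, emb_pt _ _⟩
        · right
          rw [Finset.mem_filter, SimpleGraph.mem_neighborFinset]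
          refine ⟨?_, h⟩
          rw [hg s hs]
          exact hev s hs
      have h2 := (Finset.card_le_card hsub).trans (Finset.card_union_le _ _)
      rw [Finset.card_image_of_injOn hginj, Finset.card_range] at h2
      have h3 : (((gr (CZ u)).neighborFinset (hv u I)).filter (fun w => w ∉ S)).card ≤
          b1 := by
        rw [hb1e]
        apply Finset.single_le_sum (f := bd) (fun _ _ => Nat.zero_le _)
        rw [hT1, Finset.mem_filter]
        exact ⟨(hmemH I).mp hIH, emb_hub I⟩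
      have h4 : 2 * T3.card ≤ T1.card + b1 := by
        have h5 : 2 ^ (I + 1) = 2 * 2 ^ I := by ring
        omega
      have h5 : (2 * T3.card : ℝ) ≤ T1.card + (b1 : ℝ) := by exact_mod_cast h4
      linarith
  have hT23' : (T2.card : ℝ) ≤ (b2 : ℝ) + T3.card := by exact_mod_cast hT23
  have hS' : (S.card : ℝ) = T1.card + T2.card := by exact_mod_cast hcS
  have hp2 : (0 : ℝ) ≤ (b2 : ℝ) := Nat.cast_nonneg _
  have hp1 : (0 : ℝ) ≤ (b1 : ℝ) := Nat.cast_nonneg _
  rw [← hb1e, ← hb2e] at hsum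
  show (1 / 3576 : ℝ) * S.card ≤ ((∑ v ∈ S, bd v : ℕ) : ℝ)
  rw [hsum, hS']
  push_cast
  linarith

end

end Pool.Agent.Y225.GR
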